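import Pool.Agent.Helper28_Excl.Semi3
import Pool.Agent.Helper54_Exc.Final

/-! For kernels with finite mean whose left tail dominates some power law with exponent less
than `3`, the exclusion process has no stationary distribution whose density tends to `0` at
`-∞` and to `1` at `+∞`; this covers, for every exponent in `(2, 3)`, an explicit irreducible
kernel satisfying (H). -/

namespace Pool.Agent.Results.MP_8cded5_pr.NoBlockingPowerTails

open Pool.Agent.Helper28Excl Pool.Agent.Helper54Exc MeasureTheory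

/-- Main theorem. First part: for every kernel `p` with finite mean and
`p (-n) ≥ c * n ^ (-β)`, `β < 3`, the exclusion process with kernel `p` (its Feller
semigroup `S` exists and is unique) has no stationary distribution with the two limits; more
generally no probability measure annihilated by the generator has the two limits. Second
part: for every `b` in `(2, 3)` the explicit irreducible kernel `pb b`, with
`pb b (-n) = cb b * n ^ (-b)`, satisfies (H). -/
theorem result :
    (∀ (p : ℤ → ℝ) (c β : ℝ), IsKernel p → FiniteMean p → 0 < c → β < 3 →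
      (∀ n : ℕ, 1 ≤ n → c * (n : ℝ) ^ (-β) ≤ p (-(n : ℤ))) →
      (∃ S : ℝ → C(ℤ → Bool, ℝ) →ₗ[ℝ] C(ℤ → Bool, ℝ), IsExclusionSemigroup p S ∧
        (∀ S' : ℝ → C(ℤ → Bool, ℝ) →ₗ[ℝ] C(ℤ → Bool, ℝ), IsExclusionSemigroup p S' →
          ∀ t : ℝ, 0 ≤ t → S' t = S t) ∧
        ∀ μ : Measure (ℤ → Bool), IsStationary S μ → ¬ HasLimits μ) ∧
      ∀ μ : Measure (ℤ → Bool), IsProbabilityMeasure μ →
        (∀ f : C(ℤ → Bool, ℝ), IsCyl f → ∫ η, gen p f η ∂μ = 0) → ¬ HasLimits μ) ∧
    (∀ b : ℝ, 2 < b → b < 3 → IsKernel (pb b) ∧ Irred (pb b) ∧ CondH (pb b) ∧ 0 < cb b ∧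
      ∀ n : ℕ, 1 ≤ n → pb b (-(n : ℤ)) = cb b * (n : ℝ) ^ (-b)) := by
  refine ⟨fun p c β hp hm hc hβ hlow => ?_, fun b h2 h3 => fam_stmt b h2 h3.le⟩
  have h1 : ∀ μ : Measure (ℤ → Bool), IsProbabilityMeasure μ →
      (∀ f : C(ℤ → Bool, ℝ), IsCyl f → ∫ η, gen p f η ∂μ = 0) → ¬ HasLimits μ :=
    fun μ hμ h => no_measure_power hc hβ hlow hp hm h
  refine ⟨⟨Sinf (mkKern hp hm), isExclusionSemigroup_Sinf hp hm,
    fun S' hS' t ht => semigroup_unique hp hm hS' ht, fun μ hμ => ?_⟩, h1⟩
  exact h1 μ hμ.1 (gen_of_stationary hp hm (isExclusionSemigroup_Sinf hp hm) hμ)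

end Pool.Agent.Results.MP_8cded5_pr.NoBlockingPowerTails
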